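import Pool.Agent.Helper43.GH.Defs2
import Pool.Agent.Helper63.GH.Ty

/-!
Project GH: the lemma of Ribet. A family of blocks of rank at least two, pairwise distinguished by
elements of the Lie algebra, is independent.
-/

set_option linter.unusedSectionVars false
set_option linter.unusedVariables false

open Matrix Module

namespace GH

open MH

/-- An element that commutes with the brackets is a scalar. -/
theorem com_brk62 {k : Type*} [Fintype k] [DecidableEq k] {C : Submodule ℂ (Matrix k k ℂ)} (h : TyF C)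
    (h2 : 2 ≤ Fintype.card k) {z : Matrix k k ℂ} (hz : z ∈ C) (hc : ∀ m ∈ brk C, z * m - m * z = 0) :
    ∃ c : ℂ, z = c • (1 : Matrix k k ℂ) := by
  obtain ⟨hp, hd⟩ := brk_ty h h2
  have key : ∃ c : ℂ, z - c • (1 : Matrix k k ℂ) ∈ brk C := by
    rcases hd with hd | ⟨Q, hQ, hu, hL, hd⟩
    · refine ⟨z.trace / (Fintype.card k : ℂ), ?_⟩
      rw [hd, trace_sub, trace_smul, trace_one, smul_eq_mul]
      have h0 : (Fintype.card k : ℂ) ≠ 0 := by
        have : Fintype.card k ≠ 0 := by omega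
        exact_mod_cast this
      field_simp
      ring
    · obtain ⟨c, hc'⟩ := hL z hz
      refine ⟨c / 2, ?_⟩
      rw [hd, transpose_sub, transpose_smul, transpose_one, sub_mul, mul_sub, smul_mul_assoc,
        mul_smul_comm, one_mul, mul_one]
      have e1 : zᵀ * Q - (c / 2) • Q + (Q * z - (c / 2) • Q) = (zᵀ * Q + Q * z) - c • Q := by
        have : c • Q = (c / 2) • Q + (c / 2) • Q := by rw [← add_smul, add_halves]
        rw [this]; abel
      rw [e1, hc', sub_self]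
  obtain ⟨c, hm⟩ := key
  refine ⟨c, ?_⟩
  by_contra hne
  have hz0 : z - c • (1 : Matrix k k ℂ) ≠ 0 := fun h0 => hne (sub_eq_zero.mp h0)
  have hcom : ∀ x ∈ brk C, x * (z - c • (1 : Matrix k k ℂ)) - (z - c • (1 : Matrix k k ℂ)) * x = 0 := by
    intro x hx
    have h1 := hc x hx
    rw [mul_sub, sub_mul, mul_smul_comm, smul_mul_assoc, one_mul, mul_one]
    have : x * z - c • x - (z * x - c • x) = -(z * x - x * z) := by abel
    rw [this, h1, neg_zero]
  have hs := simple_ty h h2 (N := Submodule.span ℂ {z - c • (1 : Matrix k k ℂ)})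
    (by
      rw [Submodule.span_le, Set.singleton_subset_iff]
      exact hm)
    (by
      intro x hx y hy
      obtain ⟨a, rfl⟩ := Submodule.mem_span_singleton.mp hy
      rw [mul_smul_comm, smul_mul_assoc, ← smul_sub, hcom x hx, smul_zero]
      exact Submodule.zero_mem _)
    (by
      intro h0
      apply hz0
      have : z - c • (1 : Matrix k k ℂ) ∈ Submodule.span ℂ {z - c • (1 : Matrix k k ℂ)} :=
        Submodule.mem_span_singleton_self _
      rw [h0, Submodule.mem_bot] at this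
      exact this)
  have hb : brk (brk C) ≤ ⊥ := by
    unfold brk
    rw [Submodule.span_le]
    rintro _ ⟨x, hx, y, hy, rfl⟩
    have hy' : y ∈ Submodule.span ℂ {z - c • (1 : Matrix k k ℂ)} := by
      rw [hs]; exact hy
    obtain ⟨a, rfl⟩ := Submodule.mem_span_singleton.mp hy'
    have hx' : x ∈ brk C := hx
    change _ ∈ (⊥ : Submodule ℂ (Matrix k k ℂ))
    rw [Submodule.mem_bot, mul_smul_comm, smul_mul_assoc, ← smul_sub, hcom x hx', smul_zero]
  rw [hp] at hb
  exact hz0 ((Submodule.mem_bot ℂ).mp (hb hm))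

variable {n : Type*} [Fintype n] [DecidableEq n]

/-- one block -/
structure Bk62 {k : Type*} [Fintype k] [DecidableEq k] (L : Submodule ℂ (Matrix n n ℂ)) (e : Matrix n n ℂ)
    (w : Matrix n k ℂ) (v : Matrix k n ℂ) : Prop where
  br : ∀ x ∈ L, ∀ y ∈ L, x * y - y * x ∈ L
  vw : v * w = 1
  wv : w * v = e
  com : ∀ x ∈ L, x * e = e * x
  ty : TyF (cpL w v (L ⊔ Submodule.span ℂ {1}))
  two : 2 ≤ Fintype.card k

section block

variable {k : Type*} [Fintype k] [DecidableEq k] {L : Submodule ℂ (Matrix n n ℂ)} {e : Matrix n n ℂ}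
    {w : Matrix n k ℂ} {v : Matrix k n ℂ}

theorem brk_le62 (br : ∀ x ∈ L, ∀ y ∈ L, x * y - y * x ∈ L) : brk L ≤ L := by
  unfold brk
  rw [Submodule.span_le]
  rintro _ ⟨x, hx, y, hy, rfl⟩
  exact br x hx y hy

theorem br_mem62 {x y : Matrix n n ℂ} (hx : x ∈ L) (hy : y ∈ L) : x * y - y * x ∈ brk L :=
  Submodule.subset_span ⟨x, hx, y, hy, rfl⟩

theorem Bk62.cmul (B : Bk62 L e w v) {x y : Matrix n n ℂ} (hy : y * e = e * y) :
    (v * x * w) * (v * y * w) = v * (x * y) * w := by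
  have h1 : e * w = w := by rw [← B.wv, Matrix.mul_assoc, B.vw, Matrix.mul_one]
  calc (v * x * w) * (v * y * w) = v * x * (w * v) * y * w := by simp only [Matrix.mul_assoc]
    _ = v * x * (e * y) * w := by rw [B.wv]; simp only [Matrix.mul_assoc]
    _ = v * x * y * (e * w) := by rw [← hy]; simp only [Matrix.mul_assoc]
    _ = v * (x * y) * w := by rw [h1]; simp only [Matrix.mul_assoc]

theorem Bk62.ee (B : Bk62 L e w v) : e * e = e := by
  rw [← B.wv, Matrix.mul_assoc, ← Matrix.mul_assoc v w v, B.vw, Matrix.one_mul]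

theorem Bk62.xe (B : Bk62 L e w v) {x : Matrix n n ℂ} (hx : x * e = e * x) :
    x * e = w * (v * x * w) * v := by
  calc x * e = x * e * e := by rw [Matrix.mul_assoc, B.ee]
    _ = e * x * e := by rw [hx]
    _ = (w * v) * x * (w * v) := by rw [B.wv]
    _ = w * (v * x * w) * v := by simp only [Matrix.mul_assoc]

theorem Bk62.cx (B : Bk62 L e w v) (x : Matrix n n ℂ) : v * x * w = v * (x * e) * w := by
  have h1 : e * w = w := by rw [← B.wv, Matrix.mul_assoc, B.vw, Matrix.mul_one]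
  rw [Matrix.mul_assoc v (x * e) w, Matrix.mul_assoc x e w, h1, Matrix.mul_assoc]

theorem Bk62.eq_of (B : Bk62 L e w v) {x y : Matrix n n ℂ} (hx : x * e = e * x) (hy : y * e = e * y)
    (h : v * x * w = v * y * w) : x * e = y * e := by
  rw [B.xe hx, B.xe hy, h]

/-- compression and brackets -/
theorem Bk62.brk_cpL (B : Bk62 L e w v) {M : Submodule ℂ (Matrix n n ℂ)} (hM : ∀ x ∈ M, x * e = e * x) :
    brk (cpL w v M) = cpL w v (brk M) := by
  apply le_antisymm
  · unfold brk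
    rw [Submodule.span_le]
    rintro _ ⟨_, ⟨x, hx, rfl⟩, _, ⟨y, hy, rfl⟩, rfl⟩
    refine ⟨x * y - y * x, Submodule.subset_span ⟨x, hx, y, hy, rfl⟩, ?_⟩
    rw [B.cmul (hM y hy), B.cmul (hM x hx), Matrix.mul_sub, Matrix.sub_mul]
  · rintro _ ⟨z, hz, rfl⟩
    unfold brk at hz
    induction hz using Submodule.span_induction with
    | mem z hz =>
      obtain ⟨x, hx, y, hy, rfl⟩ := hz
      rw [Matrix.mul_sub, Matrix.sub_mul, ← B.cmul (hM y hy), ← B.cmul (hM x hx)]
      exact Submodule.subset_span ⟨_, ⟨x, hx, rfl⟩, _, ⟨y, hy, rfl⟩, rfl⟩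
    | zero => rw [Matrix.mul_zero, Matrix.zero_mul]; exact Submodule.zero_mem _
    | add a b _ _ ha hb => rw [Matrix.mul_add, Matrix.add_mul]; exact Submodule.add_mem _ ha hb
    | smul c a _ ha => rw [Matrix.mul_smul, Matrix.smul_mul]; exact Submodule.smul_mem _ c ha

/-- brackets do not see the scalars -/
theorem brk_one62 (L : Submodule ℂ (Matrix n n ℂ)) : brk (L ⊔ Submodule.span ℂ {1}) = brk L := by
  apply le_antisymm
  · unfold brk
    rw [Submodule.span_le]
    rintro _ ⟨x, hx, y, hy, rfl⟩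
    obtain ⟨x0, hx0, x1, hx1, rfl⟩ := Submodule.mem_sup.mp hx
    obtain ⟨y0, hy0, y1, hy1, rfl⟩ := Submodule.mem_sup.mp hy
    obtain ⟨a, rfl⟩ := Submodule.mem_span_singleton.mp hx1
    obtain ⟨b, rfl⟩ := Submodule.mem_span_singleton.mp hy1
    have e1 : (x0 + a • (1 : Matrix n n ℂ)) * (y0 + b • 1) - (y0 + b • 1) * (x0 + a • 1) =
        x0 * y0 - y0 * x0 := by
      simp only [add_mul, mul_add, smul_mul_assoc, mul_smul_comm, one_mul, mul_one, smul_add]
      rw [smul_comm b a]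
      abel
    rw [e1]
    exact Submodule.subset_span ⟨x0, hx0, y0, hy0, rfl⟩
  · unfold brk
    apply Submodule.span_mono
    rintro _ ⟨x, hx, y, hy, rfl⟩
    exact ⟨x, (le_sup_left : L ≤ L ⊔ Submodule.span ℂ {1}) hx, y,
      (le_sup_left : L ≤ L ⊔ Submodule.span ℂ {1}) hy, rfl⟩

theorem Bk62.com' (B : Bk62 L e w v) {x : Matrix n n ℂ} (hx : x ∈ L ⊔ Submodule.span ℂ {1}) :
    x * e = e * x := by
  obtain ⟨x0, hx0, x1, hx1, rfl⟩ := Submodule.mem_sup.mp hx
  obtain ⟨a, rfl⟩ := Submodule.mem_span_singleton.mp hx1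
  rw [add_mul, mul_add, B.com x0 hx0, smul_mul_assoc, mul_smul_comm, one_mul, mul_one]

theorem Bk62.comM (B : Bk62 L e w v) {x : Matrix n n ℂ} (hx : x ∈ brk L) : x * e = e * x :=
  B.com x (brk_le62 B.br hx)

theorem Bk62.brk_C (B : Bk62 L e w v) :
    brk (cpL w v (L ⊔ Submodule.span ℂ {1})) = cpL w v (brk L) := by
  rw [B.brk_cpL (fun x hx => B.com' hx), brk_one62]

/-- ideals -/
theorem Bk62.ideal (B : Bk62 L e w v) {N : Submodule ℂ (Matrix n n ℂ)} (hN : N ≤ brk L)
    (hi : ∀ x ∈ brk L, ∀ y ∈ N, x * y - y * x ∈ N) {z : Matrix n n ℂ} (hz : z ∈ N) (hz0 : z * e ≠ 0)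
    {y : Matrix n n ℂ} (hy : y ∈ brk L) : ∃ x ∈ N, x * e = y * e := by
  have h := simple_ty B.ty B.two (N := cpL w v N)
    (by
      rw [B.brk_C]
      rintro _ ⟨x, hx, rfl⟩
      exact ⟨x, hN hx, rfl⟩)
    (by
      rw [B.brk_C]
      rintro _ ⟨x, hx, rfl⟩ _ ⟨y, hy, rfl⟩
      refine ⟨x * y - y * x, hi x hx y hy, ?_⟩
      rw [B.cmul (B.comM (hN hy)), B.cmul (B.comM hx), Matrix.mul_sub, Matrix.sub_mul])
    (by
      intro h0
      apply hz0
      have h1 : v * z * w ∈ cpL w v N := ⟨z, hz, rfl⟩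
      rw [h0, Submodule.mem_bot] at h1
      rw [B.xe (B.comM (hN hz)), h1, Matrix.mul_zero, Matrix.zero_mul])
  have h1 : v * y * w ∈ cpL w v N := by
    rw [h, B.brk_C]
    exact ⟨y, hy, rfl⟩
  obtain ⟨x, hx, hxy⟩ := h1
  exact ⟨x, hx, B.eq_of (B.comM (hN hx)) (B.comM hy) hxy.symm⟩

/-- perfectness -/
theorem Bk62.perf (B : Bk62 L e w v) {y : Matrix n n ℂ} (hy : y ∈ brk L) :
    ∃ x ∈ brk (brk L), x * e = y * e := by
  have h1 : v * y * w ∈ cpL w v (brk (brk L)) := by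
    rw [← B.brk_cpL (fun x hx => B.comM hx), ← B.brk_C, (brk_ty B.ty B.two).1, B.brk_C]
    exact ⟨y, hy, rfl⟩
  obtain ⟨x, hx, hxy⟩ := h1
  have hx' : x ∈ brk L :=
    brk_le62 (fun a ha b hb => br_mem62 (brk_le62 B.br ha) (brk_le62 B.br hb)) hx
  exact ⟨x, hx, B.eq_of (B.comM hx') (B.comM hy) hxy.symm⟩

/-- an element that is not a scalar on the block has a nonzero bracket there -/
theorem Bk62.exists_br (B : Bk62 L e w v) {x : Matrix n n ℂ} (hx : x ∈ L)
    (hne : ¬ ∃ c : ℂ, x * e = c • e) : ∃ m ∈ brk L, (x * m - m * x) * e ≠ 0 := by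
  by_contra hcon
  push Not at hcon
  apply hne
  obtain ⟨c, hc⟩ := com_brk62 B.ty B.two (z := v * x * w)
    ⟨x, (le_sup_left : L ≤ L ⊔ Submodule.span ℂ {1}) hx, rfl⟩ (by
      rw [B.brk_C]
      rintro _ ⟨m, hm, rfl⟩
      rw [B.cmul (B.comM hm), B.cmul (B.com x hx), ← Matrix.sub_mul, ← Matrix.mul_sub, B.cx,
        hcon m hm, Matrix.mul_zero, Matrix.zero_mul])
  refine ⟨c, ?_⟩
  rw [B.xe (B.com x hx), hc, Matrix.mul_smul, Matrix.smul_mul, Matrix.mul_one, B.wv]

end block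

/-- the part of a space that vanishes on a block -/
def van62 (M : Submodule ℂ (Matrix n n ℂ)) (f : Matrix n n ℂ) : Submodule ℂ (Matrix n n ℂ) where
  carrier := {x | x ∈ M ∧ x * f = 0}
  add_mem' := by
    rintro a b ⟨ha, ha'⟩ ⟨hb, hb'⟩
    exact ⟨M.add_mem ha hb, by rw [add_mul, ha', hb', add_zero]⟩
  zero_mem' := ⟨M.zero_mem, zero_mul f⟩
  smul_mem' := by
    rintro c a ⟨ha, ha'⟩
    exact ⟨M.smul_mem c ha, by rw [smul_mul_assoc, ha', smul_zero]⟩

/-- one direction -/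
theorem Bk62.pair_dir {k : Type*} [Fintype k] [DecidableEq k] {k' : Type*} [Fintype k'] [DecidableEq k']
    {L : Submodule ℂ (Matrix n n ℂ)} {e f : Matrix n n ℂ} {w : Matrix n k ℂ} {v : Matrix k n ℂ}
    {w' : Matrix n k' ℂ} {v' : Matrix k' n ℂ} (B : Bk62 L e w v) (B' : Bk62 L f w' v') (h : Prd L e f)
    {y : Matrix n n ℂ} (hy : y ∈ brk L) : ∃ x ∈ brk L, x * e = y * e ∧ x * f = 0 := by
  obtain ⟨x, hx, hne, c, hc⟩ := h
  obtain ⟨m, hm, hm0⟩ := B.exists_br hx hne
  have hN : van62 (brk L) f ≤ brk L := fun z hz => hz.1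
  have hi : ∀ x ∈ brk L, ∀ y ∈ van62 (brk L) f, x * y - y * x ∈ van62 (brk L) f := by
    rintro a ha b ⟨hb, hb0⟩
    refine ⟨br_mem62 (brk_le62 B.br ha) (brk_le62 B.br hb), ?_⟩
    rw [sub_mul, mul_assoc, hb0, mul_zero, mul_assoc, B'.comM ha, ← mul_assoc, hb0, zero_mul, sub_zero]
  have hz : x * m - m * x ∈ van62 (brk L) f := by
    refine ⟨br_mem62 hx (brk_le62 B.br hm), ?_⟩
    rw [sub_mul, mul_assoc, B'.comM hm, ← mul_assoc, hc, mul_assoc, hc, mul_smul_comm, smul_mul_assoc,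
      B'.comM hm, sub_self]
  obtain ⟨z, hz, hze⟩ := B.ideal hN hi hz hm0 hy
  exact ⟨z, hz.1, hze, hz.2⟩

variable {L : Submodule ℂ (Matrix n n ℂ)} {ι : Type*} [Fintype ι] [DecidableEq ι] {e : ι → Matrix n n ℂ} {r : ι → ℕ}
  {w : ∀ i, Matrix n (Fin (r i)) ℂ} {v : ∀ i, Matrix (Fin (r i)) n ℂ}

/-- R: Ribet's lemma: `R` a set of blocks of rank at least two, pairwise `Prd` in at least one direction -/
theorem FD.onto (br : ∀ x ∈ L, ∀ y ∈ L, x * y - y * x ∈ L) (D : FD L e r w v)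
    (hty : ∀ i, 2 ≤ r i → TyF (cpL (w i) (v i) (L ⊔ Submodule.span ℂ {1}))) (R : Finset ι) (hR : ∀ i ∈ R, 2 ≤ r i)
    (hp : ∀ i ∈ R, ∀ j ∈ R, i ≠ j → Prd L (e i) (e j) ∨ Prd L (e j) (e i)) {i : ι} (hi : i ∈ R) {y : Matrix n n ℂ}
    (hy : y ∈ brk L) : ∃ x ∈ brk L, x * e i = y * e i ∧ ∀ j ∈ R, j ≠ i → x * e j = 0 := by
  have bk : ∀ j ∈ R, Bk62 L (e j) (w j) (v j) := fun j hj =>
    ⟨br, D.vw j, D.wv j, D.com j, hty j (hR j hj), by rw [Fintype.card_fin]; exact hR j hj⟩
  -- pairs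
  have pair : ∀ j ∈ R, j ≠ i → ∀ y ∈ brk L, ∃ x ∈ brk L, x * e i = y * e i ∧ x * e j = 0 := by
    intro j hj hji y hy
    rcases hp i hi j hj (Ne.symm hji) with h | h
    · exact (bk i hi).pair_dir (bk j hj) h hy
    · obtain ⟨x, hx, hx1, hx2⟩ := (bk j hj).pair_dir (bk i hi) h hy
      refine ⟨y - x, Submodule.sub_mem _ hy hx, ?_, ?_⟩
      · rw [sub_mul, hx2, sub_zero]
      · rw [sub_mul, hx1, sub_self]
  have hL := brk_le62 br
  have main : ∀ S : Finset ι, S ⊆ R → i ∉ S → ∀ y ∈ brk L,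
      ∃ x ∈ brk L, x * e i = y * e i ∧ ∀ j ∈ S, x * e j = 0 := by
    intro S
    induction S using Finset.induction_on with
    | empty =>
      intro _ _ y hy
      exact ⟨y, hy, rfl, fun j hj => absurd hj (Finset.notMem_empty j)⟩
    | insert s S hsS ih =>
      intro hSR hiS y hy
      have hS : S ⊆ R := fun j hj => hSR (Finset.mem_insert_of_mem hj)
      have hs : s ∈ R := hSR (Finset.mem_insert_self s S)
      have hsi : s ≠ i := fun h => hiS (h ▸ Finset.mem_insert_self s S)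
      have hiS' : i ∉ S := fun h => hiS (Finset.mem_insert_of_mem h)
      obtain ⟨z, hz, hze⟩ := (bk i hi).perf hy
      have hz2 : ∃ x ∈ brk L, x * e i = z * e i ∧ ∀ j ∈ insert s S, x * e j = 0 := by
        clear hze
        unfold brk at hz
        induction hz using Submodule.span_induction with
        | mem z hz =>
          obtain ⟨a, ha, b, hb, rfl⟩ := hz
          obtain ⟨a', ha', ha1, ha2⟩ := ih hS hiS' a ha
          obtain ⟨b', hb', hb1, hb2⟩ := pair s hs hsi b hb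
          refine ⟨a' * b' - b' * a', br_mem62 (hL ha') (hL hb'), ?_, ?_⟩
          · rw [sub_mul, sub_mul, mul_assoc a' b', hb1, mul_assoc b' a', ha1,
              (bk i hi).comM hb, (bk i hi).comM ha, ← mul_assoc, ← mul_assoc, ha1, hb1,
              mul_assoc, mul_assoc, ← (bk i hi).comM hb, ← (bk i hi).comM ha, mul_assoc, mul_assoc]
          · intro j hj
            rw [Finset.mem_insert] at hj
            rcases hj with rfl | hj
            · rw [sub_mul, mul_assoc, hb2, mul_zero, mul_assoc, (bk j hs).comM ha', ← mul_assoc, hb2,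
                zero_mul, sub_zero]
            · rw [sub_mul, mul_assoc, (bk j (hS hj)).comM hb', ← mul_assoc, ha2 j hj, zero_mul,
                mul_assoc, ha2 j hj, mul_zero, sub_zero]
        | zero => exact ⟨0, Submodule.zero_mem _, rfl, fun j _ => zero_mul _⟩
        | add a b _ _ ha hb =>
          obtain ⟨a', ha', ha1, ha2⟩ := ha
          obtain ⟨b', hb', hb1, hb2⟩ := hb
          exact ⟨a' + b', Submodule.add_mem _ ha' hb', by rw [add_mul, add_mul, ha1, hb1],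
            fun j hj => by rw [add_mul, ha2 j hj, hb2 j hj, add_zero]⟩
        | smul c a _ ha =>
          obtain ⟨a', ha', ha1, ha2⟩ := ha
          exact ⟨c • a', Submodule.smul_mem _ c ha', by rw [smul_mul_assoc, smul_mul_assoc, ha1],
            fun j hj => by rw [smul_mul_assoc, ha2 j hj, smul_zero]⟩
      obtain ⟨x, hx, hx1, hx2⟩ := hz2
      exact ⟨x, hx, hx1.trans hze, hx2⟩
  obtain ⟨x, hx, hx1, hx2⟩ := main (R.erase i) (Finset.erase_subset i R) (Finset.notMem_erase i R) y hy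
  exact ⟨x, hx, hx1, fun j hj hji => hx2 j (Finset.mem_erase.mpr ⟨hji, hj⟩)⟩

end GH
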